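import Mathlib

/-! Gaps of the zero set of a function whose sign is reversed by a circle homeomorphism. -/

open Set

namespace Pool.Agent.FS.EvenPolygon

/-- `(α, β)` is a gap of the zero set of `d` that carries mass at least `m` -/
structure Gap (d : ℝ → ℝ) (m α β : ℝ) : Prop where
  lt : α < β
  l0 : d α = 0
  r0 : d β = 0
  ne : ∀ θ, α < θ → θ < β → d θ ≠ 0
  ms : m ≤ ∫ x in α..β, |d x|

variable {d f : ℝ → ℝ} {m T α β : ℝ}

theorem Gap.shift (pd : Function.Periodic d T) (h : Gap d m α β) (k : ℤ) :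
    Gap d m (α + k * T) (β + k * T) := by
  have p : ∀ x, d (x + k * T) = d x := pd.int_mul k
  refine ⟨by linarith [h.lt], by rw [p, h.l0], by rw [p, h.r0], fun θ h1 h2 => ?_, ?_⟩
  · have := h.ne (θ - k * T) (by linarith) (by linarith)
    rwa [← p, sub_add_cancel] at this
  · rw [← intervalIntegral.integral_comp_add_right (fun x => |d x|)]
    simp only [p]
    exact h.ms

theorem Gap.unique {β' : ℝ} (h : Gap d m α β) (h' : Gap d m α β') : β = β' := by
  rcases lt_trichotomy β β' with c | c | c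
  · exact absurd h.r0 (h'.ne β h.lt c)
  · exact c
  · exact absurd h'.r0 (h.ne β' h'.lt c)

theorem gap_pigeon (cd : Continuous d) (hm : 0 < m) (γ δ : ℝ) (z : ℕ → ℝ)
    (hz : ∀ n, z n ∈ Icc γ δ) (hg : ∀ n, ∃ w, Gap d m (z n) w) : ∃ n n', n < n' ∧ z n = z n' := by
  have add : ∀ x y w : ℝ, (∫ t in x..y, |d t|) + ∫ t in y..w, |d t| = ∫ t in x..w, |d t| :=
    fun x y w => intervalIntegral.integral_add_adjacent_intervals
      (cd.abs.intervalIntegrable _ _) (cd.abs.intervalIntegrable _ _)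
  have nn : ∀ x y : ℝ, x ≤ y → 0 ≤ ∫ t in x..y, |d t| := fun x y h =>
    intervalIntegral.integral_nonneg h fun _ _ => abs_nonneg _
  have sep : ∀ n n', z n < z n' → m ≤ (∫ t in γ..z n', |d t|) - ∫ t in γ..z n, |d t| := by
    intro n n' h
    obtain ⟨w, hw⟩ := hg n
    obtain ⟨w', hw'⟩ := hg n'
    have h1 : w ≤ z n' := not_lt.1 fun c => hw.ne _ h c hw'.l0
    linarith [add γ (z n) (z n'), add (z n) w (z n'), nn _ _ h1, hw.ms]
  obtain ⟨n, n', hn, e⟩ := Set.Finite.exists_lt_map_eq_of_forall_mem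
    (f := fun n => ⌊(∫ t in γ..z n, |d t|) / m⌋)
    (t := Icc 0 ⌊(∫ t in γ..δ, |d t|) / m⌋) (fun n =>
      ⟨Int.floor_nonneg.2 (div_nonneg (nn _ _ (hz n).1) hm.le),
        Int.floor_mono (div_le_div_of_nonneg_right
          (by linarith [add γ (z n) δ, nn _ _ (hz n).2]) hm.le)⟩) (finite_Icc _ _)
  refine ⟨n, n', hn, ?_⟩
  have h1 := Int.abs_sub_lt_one_of_floor_eq_floor e
  rw [← sub_div, abs_div, abs_of_pos hm, div_lt_one hm, abs_lt] at h1
  rcases lt_trichotomy (z n) (z n') with c | c | c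
  · linarith [sep _ _ c, h1.1]
  · exact c
  · linarith [sep _ _ c, h1.2]

theorem exists_gap (cd : Continuous d) (hT : 0 < T) (pd : Function.Periodic d T) {z θ : ℝ}
    (hz : d z = 0) (hθ : d θ ≠ 0) : ∃ m α β, 0 < m ∧ Gap d m α β := by
  have hc : IsClosed {x | d x = 0} := isClosed_eq cd continuous_const
  obtain ⟨k, hk, -⟩ := existsUnique_add_zsmul_mem_Ico hT z θ
  have h1 : d (z + k • T) = 0 := by rw [pd.zsmul k, hz]
  have h2 : d (z + k • T - T) = 0 := by rw [pd.sub_eq, h1]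
  have b1 : BddAbove ({x | d x = 0} ∩ Iic θ) := ⟨θ, fun x hx => hx.2⟩
  have b2 : BddBelow ({x | d x = 0} ∩ Ici θ) := ⟨θ, fun x hx => hx.2⟩
  have m1 := (hc.inter isClosed_Iic).csSup_mem ⟨_, h2, (by linarith [hk.2] : _ ≤ θ)⟩ b1
  have m2 := (hc.inter isClosed_Ici).csInf_mem ⟨_, h1, hk.1⟩ b2
  have l1 : sSup ({x | d x = 0} ∩ Iic θ) < θ := lt_of_le_of_ne m1.2 fun c => hθ (c ▸ m1.1)
  have l2 : θ < sInf ({x | d x = 0} ∩ Ici θ) := lt_of_le_of_ne m2.2 fun c => hθ (c.symm ▸ m2.1)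
  have ne : ∀ x, sSup ({x | d x = 0} ∩ Iic θ) < x → x < sInf ({x | d x = 0} ∩ Ici θ) →
      d x ≠ 0 := fun x a b c => by
    rcases le_total x θ with e | e
    · exact absurd (le_csSup b1 ⟨c, e⟩) (not_le.2 a)
    · exact absurd (csInf_le b2 ⟨c, e⟩) (not_le.2 b)
  exact ⟨_, _, _, intervalIntegral.intervalIntegral_pos_of_pos_on
    (cd.abs.intervalIntegrable _ _) (fun x hx => abs_pos.2 (ne x hx.1 hx.2)) (l1.trans l2),
    l1.trans l2, m1.1, m2.1, ne, le_rfl⟩

/-- An increasing map that commutes with the period, reverses the sign of `d` and does not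
decrease the mass between zeros has a periodic zero of `d`, and no point of odd period. -/
theorem dyn (cd : Continuous d) (hT : 0 < T) (pd : Function.Periodic d T) (hf : StrictMono f)
    (hs : Function.Surjective f) (hk : ∀ θ (k : ℤ), f (θ + k * T) = f θ + k * T)
    (s0 : ∀ θ, d θ = 0 → d (f θ) = 0) (sg : ∀ θ, d θ ≠ 0 → d (f θ) * d θ < 0)
    (ms : ∀ α β, α ≤ β → d α = 0 → d β = 0 → ∫ x in α..β, |d x| ≤ ∫ x in f α..f β, |d x|)
    (h0 : ∃ θ, d θ ≠ 0) :
    (∃ α, d α = 0 ∧ ∃ N, 0 < N ∧ ∃ k : ℤ, f^[N] α = α + k * T) ∧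
      ∀ γ q, Odd q → ∀ k : ℤ, f^[q] γ ≠ γ + k * T := by
  obtain ⟨θ₀, hθ₀⟩ := h0
  have ivt : ∀ x y, d y * d x < 0 → ∃ z ∈ uIcc x y, d z = 0 := fun x y h => by
    refine intermediate_value_uIcc cd.continuousOn ?_
    rcases mul_neg_iff.1 h with c | c
    · exact mem_uIcc.2 (Or.inl ⟨c.2.le, c.1.le⟩)
    · exact mem_uIcc.2 (Or.inr ⟨c.1.le, c.2.le⟩)
  obtain ⟨z, -, hz⟩ := ivt _ _ (sg θ₀ hθ₀)
  obtain ⟨m, α, β, hm, hg⟩ := exists_gap cd hT pd hz hθ₀
  have g1 : ∀ α β, Gap d m α β → Gap d m (f α) (f β) := fun α β h =>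
    ⟨hf h.lt, s0 _ h.l0, s0 _ h.r0, fun θ h1 h2 c => by
      obtain ⟨x, rfl⟩ := hs θ
      have := sg x (h.ne x (hf.lt_iff_lt.1 h1) (hf.lt_iff_lt.1 h2))
      rw [c, zero_mul] at this
      exact lt_irrefl _ this, h.ms.trans (ms α β h.lt.le h.l0 h.r0)⟩
  have gn : ∀ n α β, Gap d m α β → Gap d m (f^[n] α) (f^[n] β) := fun n => by
    induction n with
    | zero => exact fun _ _ h => h
    | succ n ih => exact fun α β h => ih _ _ (g1 α β h)
  have kn : ∀ n θ (k : ℤ), f^[n] (θ + k * T) = f^[n] θ + k * T := fun n => by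
    induction n with
    | zero => exact fun _ _ => rfl
    | succ n ih => intro θ k; rw [Function.iterate_succ_apply, hk, ih]; rfl
  have red : ∀ γ x : ℝ, ∃ k : ℤ, x + k * T ∈ Icc γ (γ + T) := fun γ x => by
    obtain ⟨k, hk, -⟩ := existsUnique_add_zsmul_mem_Ico hT x γ
    exact ⟨k, by rw [← zsmul_eq_mul]; exact Ico_subset_Icc_self hk⟩
  constructor
  · choose k hk' using fun n => red 0 (f^[n] α)
    obtain ⟨n, n', hn, e⟩ := gap_pigeon cd hm 0 (0 + T) _ hk'
      fun n => ⟨_, (gn n α β hg).shift pd (k n)⟩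
    refine ⟨f^[n] α, (gn n α β hg).l0, n' - n, Nat.sub_pos_of_lt hn, k n - k n', ?_⟩
    rw [← Function.iterate_add_apply, Nat.sub_add_cancel hn.le]
    push_cast
    linarith
  · intro γ q hq k e
    have sn : ∀ n θ, d θ ≠ 0 → 0 < (-1) ^ n * d θ * d (f^[n] θ) := fun n θ hθ => by
      induction n with
      | zero => simpa using hθ
      | succ n ih =>
        have h1 : d (f^[n] θ) ≠ 0 := fun c => by rw [c, mul_zero] at ih; exact lt_irrefl _ ih
        have h2 := sg _ h1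
        rw [Function.iterate_succ_apply', pow_succ]
        by_contra c
        nlinarith [mul_neg_of_pos_of_neg ih h2, mul_nonneg (sq_nonneg (d (f^[n] θ)))
          (sub_nonneg.2 (not_lt.1 c))]
    let h : ℝ → ℝ := fun θ => f^[q] θ + (-k : ℤ) * T
    have hmono : StrictMono h := fun x y c => by
      have := hf.iterate q c
      simp only [h]
      linarith
    have gh : ∀ α β, Gap d m α β → Gap d m (h α) (h β) := fun α β c => (gn q α β c).shift pd _
    have f1 : h γ = γ := by simp only [h, e]; push_cast; ring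
    have f2 : h (γ + T) = γ + T := by
      have := kn q γ 1
      simp only [Int.cast_one, one_mul] at this
      simp only [h, this, e]; push_cast; ring
    obtain ⟨j, hj⟩ := red γ α
    have hg' := hg.shift pd j
    generalize α + j * T = α' at hj hg'
    generalize β + j * T = β' at hg'
    have orb : ∀ n, h^[n] α' ∈ Icc γ (γ + T) ∧ ∃ w, Gap d m (h^[n] α') w := fun n => by
      induction n with
      | zero => exact ⟨hj, _, hg'⟩
      | succ n ih =>
        obtain ⟨i1, w, i2⟩ := ih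
        rw [Function.iterate_succ_apply']
        exact ⟨⟨f1 ▸ hmono.monotone i1.1, f2 ▸ hmono.monotone i1.2⟩, _, gh _ _ i2⟩
    obtain ⟨n, n', hn, e'⟩ := gap_pigeon cd hm γ (γ + T) _ (fun n => (orb n).1) fun n => (orb n).2
    have fx : h α' = α' := by
      rcases lt_trichotomy α' (h α') with c | c | c
      · exact absurd e' (hmono.strictMono_iterate_of_lt_map c hn).ne
      · exact c.symm
      · exact absurd e' (hmono.strictAnti_iterate_of_map_lt c hn).ne'
    have fy : h β' = β' := (fx ▸ gh _ _ hg').unique hg'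
    obtain ⟨θ, t1, t2⟩ := exists_between hg'.lt
    have t3 : α' < h θ := fx ▸ hmono t1
    have t4 : h θ < β' := fy ▸ hmono t2
    have t5 := sn q θ (hg'.ne θ t1 t2)
    rw [hq.neg_one_pow] at t5
    have t6 : d (h θ) = d (f^[q] θ) := pd.int_mul (-k) _
    obtain ⟨y, hy, y0⟩ := ivt θ (h θ) (by rw [t6]; linarith)
    rcases mem_uIcc.1 hy with c | c
    · exact hg'.ne y (t1.trans_le c.1) (c.2.trans_lt t4) y0
    · exact hg'.ne y (t3.trans_le c.1) (c.2.trans_lt t2) y0

end Pool.Agent.FS.EvenPolygon
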