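import Pool.Agent.FS.EvenPolygon.Half

/-! Tangent coordinates for a convex body that contains the unit disc in its interior. -/

open MeasureTheory Set Real

namespace Pool.Agent.FS.EvenPolygon

/-- the point with parameter `t` on the tangent line at angle `θ` -/
noncomputable def pt (θ t : ℝ) : EuclideanSpace ℝ (Fin 2) :=
  !₂[cos θ - t * sin θ, sin θ + t * cos θ]

variable {K : Set (EuclideanSpace ℝ (Fin 2))}

theorem ray1 (hc : IsCompact K) (hv : Convex ℝ K) {x v : EuclideanSpace ℝ (Fin 2)}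
    (hx : x ∈ interior K) (h1 : ‖v‖ = 1) : ∃ r : ℝ, 0 < r ∧ ∀ t : ℝ, 0 ≤ t →
      (x + t • v ∈ K ↔ t ≤ r) ∧ (x + t • v ∈ interior K ↔ t < r) := by
  have hφ : Isometry fun t : ℝ => x + t • v := Isometry.of_dist_eq fun s t => by
    simp only [dist_eq_norm, add_sub_add_left_eq_sub, ← sub_smul, norm_smul, h1, mul_one]
  have hS : IsCompact {t : ℝ | x + t • v ∈ K} := hφ.isClosedEmbedding.isCompact_preimage hc
  obtain ⟨r, hr, hmax⟩ := hS.exists_isGreatest ⟨0, by simpa using interior_subset hx⟩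
  have up : ∀ t : ℝ, x + t • v ∈ interior K → t < r := fun t ht => by
    have : {t : ℝ | x + t • v ∈ K} ∈ nhds t :=
      hφ.continuous.continuousAt.preimage_mem_nhds (mem_interior_iff_mem_nhds.1 ht)
    obtain ⟨l, u, hu, hsub⟩ := mem_nhds_iff_exists_Ioo_subset.1 this
    obtain ⟨s, s1, s2⟩ := exists_between hu.2
    exact s1.trans_le (hmax (hsub ⟨hu.1.trans s1, s2⟩))
  have hr0 : 0 < r := up 0 (by simpa using hx)
  have lo : ∀ t : ℝ, 0 ≤ t → t < r → x + t • v ∈ interior K := fun t t0 t1 => by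
    have := hv.combo_interior_self_mem_interior hx hr (a := 1 - t / r) (b := t / r)
      (sub_pos.2 ((div_lt_one hr0).2 t1)) (div_nonneg t0 hr0.le) (by ring)
    rwa [smul_add, smul_smul, div_mul_cancel₀ _ hr0.ne', ← add_assoc, ← add_smul, sub_add_cancel,
      one_smul] at this
  refine ⟨r, hr0, fun t t0 => ⟨⟨fun h => hmax h, fun h => ?_⟩, up t, lo t t0⟩⟩
  rcases h.eq_or_lt with rfl | h
  · exact hr
  · exact interior_subset (lo t t0 h)

theorem ray (hc : IsCompact K) (q : ℝ → ℝ → EuclideanSpace ℝ (Fin 2))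
    (cq : ∀ t, Continuous fun θ => q θ t) (r : ℝ → ℝ) (h0 : ∀ θ, 0 < r θ)
    (h : ∀ θ t, 0 ≤ t → (q θ t ∈ K ↔ t ≤ r θ) ∧ (q θ t ∈ interior K ↔ t < r θ)) :
    Continuous r := by
  rw [continuous_iff_lower_upperSemicontinuous, lowerSemicontinuous_iff_isOpen_preimage,
    upperSemicontinuous_iff_isOpen_preimage]
  refine ⟨fun y => ?_, fun y => ?_⟩
  · rcases le_total 0 y with c | c
    · convert isOpen_interior.preimage (cq y) using 1
      exact Set.ext fun θ => (h θ y c).2.symm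
    · convert isOpen_univ
      exact eq_univ_of_forall fun θ => c.trans_lt (h0 θ)
  · rcases le_total 0 y with c | c
    · convert hc.isClosed.isOpen_compl.preimage (cq y) using 1
      exact Set.ext fun θ => not_le.symm.trans (h θ y c).1.symm.not
    · convert isOpen_empty
      exact eq_empty_of_forall_notMem fun θ e => lt_asymm (c.trans_lt (h0 θ)) e

theorem pt_flip (θ t : ℝ) : pt θ (-t) = pt (θ - 2 * arctan t) t := by
  obtain ⟨ψ, rfl⟩ : ∃ ψ, θ = ψ + arctan t := ⟨θ - arctan t, by ring⟩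
  have hw : sin (arctan t) = t * cos (arctan t) := by
    have := tan_arctan t
    rw [tan_eq_sin_div_cos, div_eq_iff (cos_arctan_pos t).ne'] at this
    exact this
  rw [show ψ + arctan t - 2 * arctan t = ψ - arctan t by ring]
  ext i
  fin_cases i
  · simp only [pt, cos_add, sin_add, cos_sub, sin_sub, hw]
    simp
    ring
  · simp only [pt, cos_add, sin_add, cos_sub, sin_sub, hw]
    simp
    ring

theorem pt_per (θ t : ℝ) (k : ℤ) : pt (θ + k * (2 * π)) t = pt θ t := by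
  rw [pt, pt, cos_add_int_mul_two_pi, sin_add_int_mul_two_pi]

theorem pt_inj {θ φ s s' : ℝ} (hs : 0 < s) (hs' : 0 < s') (h : pt θ s = pt φ s') :
    ∃ k : ℤ, θ = φ + k * (2 * π) := by
  have h0 : cos θ - s * sin θ = cos φ - s' * sin φ := by simpa [pt] using congrArg (· 0) h
  have h1 : sin θ + s * cos θ = sin φ + s' * cos φ := by simpa [pt] using congrArg (· 1) h
  have e : s ^ 2 = s' ^ 2 := by
    linear_combination (cos θ - s * sin θ + (cos φ - s' * sin φ)) * h0 +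
      (sin θ + s * cos θ + (sin φ + s' * cos φ)) * h1 - (1 + s ^ 2) * sin_sq_add_cos_sq θ +
      (1 + s' ^ 2) * sin_sq_add_cos_sq φ
  obtain rfl : s = s' := (pow_left_inj₀ hs.le hs'.le two_ne_zero).1 e
  have hp : (1 + s ^ 2) ≠ 0 := by positivity
  obtain ⟨k, hk⟩ := Angle.angle_eq_iff_two_pi_dvd_sub.1 (Angle.cos_sin_inj (θ := θ) (ψ := φ)
    (mul_left_cancel₀ hp (by linear_combination h0 + s * h1))
    (mul_left_cancel₀ hp (by linear_combination h1 - s * h0)))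
  exact ⟨k, by linarith⟩

theorem exists_angle {c d : ℝ} (h : c ^ 2 + d ^ 2 = 1) : ∃ θ, cos θ = c ∧ sin θ = d := by
  have h1 : ‖(⟨c, d⟩ : ℂ)‖ = 1 := by
    rw [Complex.norm_eq_sqrt_sq_add_sq, h, sqrt_one]
  refine ⟨Complex.arg ⟨c, d⟩, ?_, ?_⟩
  · rw [Complex.cos_arg (norm_ne_zero_iff.1 (by rw [h1]; exact one_ne_zero)), h1, div_one]
  · rw [Complex.sin_arg, h1, div_one]

theorem pt_unit {e : EuclideanSpace ℝ (Fin 2)} (h : ‖e‖ = 1) : ∃ θ, ∀ t : ℝ,
    e + t • (!₂[-e 1, e 0] : EuclideanSpace ℝ (Fin 2)) = pt θ t := by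
  have h2 := EuclideanSpace.real_norm_sq_eq e
  rw [h, Fin.sum_univ_two, one_pow] at h2
  obtain ⟨θ, h0, h1⟩ := exists_angle h2.symm
  refine ⟨θ, fun t => ?_⟩
  ext i
  fin_cases i <;> simp [pt, h0, h1, sub_eq_add_neg]

theorem pt_zero (θ : ℝ) : ‖pt θ 0‖ = 1 ∧ ∀ t : ℝ,
    pt θ 0 + t • (!₂[-pt θ 0 1, pt θ 0 0] : EuclideanSpace ℝ (Fin 2)) = pt θ t := by
  refine ⟨?_, fun t => ?_⟩
  · rw [EuclideanSpace.norm_eq, Fin.sum_univ_two]
    simp [pt]
  · ext i
    fin_cases i <;> simp [pt, sub_eq_add_neg]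

theorem pt_outer {x : EuclideanSpace ℝ (Fin 2)} (h : 1 ≤ ‖x‖) : ∃ θ s, 0 ≤ s ∧ x = pt θ s := by
  have h2 := EuclideanSpace.real_norm_sq_eq x
  rw [Fin.sum_univ_two] at h2
  obtain ⟨s, s0, hs⟩ : ∃ s : ℝ, 0 ≤ s ∧ s ^ 2 = x 0 ^ 2 + x 1 ^ 2 - 1 :=
    ⟨√_, sqrt_nonneg _, sq_sqrt (by nlinarith)⟩
  have hp : (1 + s ^ 2) ≠ 0 := by positivity
  obtain ⟨θ, h0, h1⟩ := exists_angle (c := (x 0 + s * x 1) / (1 + s ^ 2))
    (d := (x 1 - s * x 0) / (1 + s ^ 2)) (by field_simp; linear_combination (-1 - s ^ 2) * hs)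
  refine ⟨θ, s, s0, ?_⟩
  ext i
  fin_cases i
  · simp [pt, h0, h1]
    field_simp
    ring
  · simp [pt, h0, h1]
    field_simp
    ring

theorem exists_half (hc : IsCompact K) (hv : Convex ℝ K)
    (hb : Metric.closedBall 0 1 ⊆ interior K) : ∃ a b, Half a b ∧
      (∀ θ t, 0 ≤ t → (pt θ t ∈ K ↔ t ≤ a θ) ∧ (pt θ t ∈ frontier K ↔ t = a θ)) ∧
      (∀ θ t, 0 ≤ t → (pt θ (-t) ∈ frontier K ↔ t = b θ)) ∧
      ∀ θ, volume {t | pt θ t ∈ K} = ENNReal.ofReal (a θ + b θ) := by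
  have hx : ∀ θ, pt θ 0 ∈ interior K := fun θ => hb (by simp [(pt_zero θ).1])
  have hu : ∀ θ, ‖(!₂[-pt θ 0 1, pt θ 0 0] : EuclideanSpace ℝ (Fin 2))‖ = 1 := fun θ => by
    rw [EuclideanSpace.norm_eq, Fin.sum_univ_two]
    simp [pt]
  choose a a0 ha using fun θ => ray1 hc hv (hx θ) (hu θ)
  choose b b0 hb' using fun θ => ray1 hc hv (hx θ) ((norm_neg _).trans (hu θ))
  simp only [(pt_zero _).2] at ha
  simp only [smul_neg, ← neg_smul, (pt_zero _).2] at hb'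
  have cp : ∀ t, Continuous fun θ => pt θ t := fun t => by unfold pt; fun_prop
  have per : ∀ (q : ℝ → ℝ → EuclideanSpace ℝ (Fin 2)) (r : ℝ → ℝ), (∀ θ, 0 < r θ) →
      (∀ θ t, q (θ + 2 * π) t = q θ t) → (∀ θ t, 0 ≤ t → (q θ t ∈ K ↔ t ≤ r θ)) →
      Function.Periodic r (2 * π) := fun q r h0 hq h θ =>
    le_antisymm ((h θ _ (h0 _).le).1 (hq θ _ ▸ (h _ _ (h0 _).le).2 le_rfl))
      ((h _ _ (h0 _).le).1 ((hq θ _).symm ▸ (h θ _ (h0 _).le).2 le_rfl))
  have p1 : ∀ θ t, pt (θ + 2 * π) t = pt θ t := fun θ t => by simpa using pt_per θ t 1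
  refine ⟨a, b, ⟨ray hc pt cp a a0 ha, ray hc (fun θ t => pt θ (-t)) (fun t => cp _) b b0 hb',
    a0, b0, per pt a a0 p1 fun θ t h => (ha θ t h).1,
    per (fun θ t => pt θ (-t)) b b0 (fun θ t => p1 θ _) fun θ t h => (hb' θ t h).1,
    fun θ t h => ?_, fun θ t h => ?_⟩, fun θ t h => ⟨(ha θ t h).1, ?_⟩, fun θ t h => ?_,
    fun θ => ?_⟩
  · rw [← (hb' θ t h.le).1, ← (ha _ t h.le).1, pt_flip]
  · rw [← (hb' θ t h.le).2, ← (ha _ t h.le).2, pt_flip]
  · rw [hc.isClosed.frontier_eq, mem_sdiff, (ha θ t h).1, (ha θ t h).2, eq_iff_le_not_lt]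
  · rw [hc.isClosed.frontier_eq, mem_sdiff, (hb' θ t h).1, (hb' θ t h).2, eq_iff_le_not_lt]
  · have : {t | pt θ t ∈ K} = Icc (-b θ) (a θ) := Set.ext fun t => by
      rcases le_total 0 t with c | c
      · exact (ha θ t c).1.trans ⟨fun h => ⟨by linarith [b0 θ], h⟩, fun h => h.2⟩
      · have := (hb' θ (-t) (neg_nonneg.2 c)).1
        rw [neg_neg] at this
        exact this.trans ⟨fun h => ⟨by linarith, by linarith [a0 θ]⟩, fun h => by linarith [h.1]⟩
    rw [this, volume_Icc, sub_neg_eq_add]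

end Pool.Agent.FS.EvenPolygon
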