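import Pool.Agent.FS.EvenPolygon.Dyn

/-! Half chords on the tangent lines of the unit circle and the chord map. -/

open MeasureTheory Set Real

namespace Pool.Agent.FS.EvenPolygon

/-- forward and backward half chords of one body -/
structure Half (a b : ℝ → ℝ) : Prop where
  ca : Continuous a
  cb : Continuous b
  pa : ∀ θ, 0 < a θ
  pb : ∀ θ, 0 < b θ
  qa : Function.Periodic a (2 * π)
  qb : Function.Periodic b (2 * π)
  le : ∀ θ t, 0 < t → (t ≤ b θ ↔ t ≤ a (θ - 2 * arctan t))
  lt : ∀ θ t, 0 < t → (t < b θ ↔ t < a (θ - 2 * arctan t))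

/-- the chord map -/
noncomputable def nxt (b : ℝ → ℝ) (θ : ℝ) : ℝ := θ - 2 * arctan (b θ)

variable {a b a' b' : ℝ → ℝ}

theorem Half.eq (H : Half a b) {θ t : ℝ} (ht : 0 < t) :
    t = b θ ↔ t = a (θ - 2 * arctan t) := by
  rw [eq_iff_le_not_lt, eq_iff_le_not_lt, H.le θ t ht, H.lt θ t ht]

theorem Half.a_nxt (H : Half a b) (θ : ℝ) : a (nxt b θ) = b θ := ((H.eq (H.pb θ)).1 rfl).symm

theorem Half.surj (H : Half a b) : Function.Surjective (nxt b) := fun φ => by
  refine ⟨φ + 2 * arctan (a φ), ?_⟩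
  have : a φ = b (φ + 2 * arctan (a φ)) := (H.eq (H.pa φ)).2 (by rw [add_sub_cancel_right])
  rw [nxt, ← this, add_sub_cancel_right]

theorem Half.shift (H : Half a b) (θ : ℝ) (k : ℤ) :
    nxt b (θ + k * (2 * π)) = nxt b θ + k * (2 * π) := by
  rw [nxt, nxt, H.qb.int_mul k θ]
  ring

theorem Half.mono (H : Half a b) : StrictMono (nxt b) := by
  have hc : Continuous (nxt b) :=
    continuous_id.sub (continuous_const.mul (continuous_arctan.comp H.cb))
  have hi : Function.Injective (nxt b) := fun θ φ h => by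
    have h1 : b θ = b φ := by rw [← H.a_nxt θ, ← H.a_nxt φ, h]
    rw [nxt, nxt, h1] at h
    linarith
  refine (hc.strictMono_of_inj hi).resolve_right fun h => ?_
  have := pi_pos
  have h2 := h (show (0 : ℝ) < 0 + (1 : ℤ) * (2 * π) by push_cast; linarith)
  rw [H.shift 0 1] at h2
  push_cast at h2
  linarith

theorem half_loc (H : Half a b) (H' : Half a' b') {θ t : ℝ} (h1 : b θ < t) (h2 : t < b' θ) :
    a (θ - 2 * arctan t) < t ∧ t < a' (θ - 2 * arctan t) ∧ nxt b' θ < θ - 2 * arctan t ∧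
      θ - 2 * arctan t < nxt b θ := by
  have ht := (H.pb θ).trans h1
  refine ⟨not_le.1 fun c => not_le.2 h1 ((H.le θ t ht).2 c), (H'.lt θ t ht).1 h2, ?_, ?_⟩
  · have := arctan_strictMono h2
    rw [nxt]; linarith
  · have := arctan_strictMono h1
    rw [nxt]; linarith

theorem shear : MeasurePreserving (fun z : ℝ × ℝ => (z.1 - 2 * arctan z.2, z.2))
    (volume.prod volume) (volume.prod volume) := by
  have h1 : MeasurePreserving (fun z : ℝ × ℝ => (id z.1, z.2 - 2 * arctan z.1))
      (volume.prod volume) (volume.prod volume) :=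
    MeasurePreserving.skew_product (g := fun t θ : ℝ => θ - 2 * arctan t)
      (MeasurePreserving.id volume)
      (continuous_snd.sub (continuous_const.mul (continuous_arctan.comp continuous_fst))).measurable
      (Filter.Eventually.of_forall fun t => map_sub_right_eq_self volume _)
  exact Measure.measurePreserving_swap.comp (h1.comp Measure.measurePreserving_swap)

theorem lens {u v : ℝ → ℝ} (hu : Continuous u) (hv : Continuous v) {α β : ℝ} (h : α ≤ β) :
    (volume.prod volume) (regionBetween (fun x => min (u x) (v x)) (fun x => max (u x) (v x))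
      (Ioc α β)) = ENNReal.ofReal (∫ x in α..β, |u x - v x|) := by
  rw [volume_regionBetween_eq_integral ((hu.min hv).integrableOn_Icc.mono_set Ioc_subset_Icc_self)
    ((hu.max hv).integrableOn_Icc.mono_set Ioc_subset_Icc_self) measurableSet_Ioc
    (fun x _ => min_le_max), intervalIntegral.integral_of_le h]
  simp only [Pi.sub_apply, max_sub_min_eq_abs']

theorem mass (H : Half a b) (H' : Half a' b') (hs : ∀ θ, a θ + b θ = a' θ + b' θ) (α β : ℝ)
    (h : α ≤ β) (hα : a α - a' α = 0) (hβ : a β - a' β = 0) :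
    ∫ x in α..β, |a x - a' x| ≤ ∫ x in nxt b α..nxt b β, |a x - a' x| := by
  have eα : nxt b' α = nxt b α := by rw [nxt, nxt, show b' α = b α by linarith [hs α]]
  have eβ : nxt b' β = nxt b β := by rw [nxt, nxt, show b' β = b β by linarith [hs β]]
  have hm := H.mono.monotone h
  have e1 : ∀ x, |a x - a' x| = |b x - b' x| := fun x => by
    rw [← abs_neg]; congr 1; linarith [hs x]
  rw [← ENNReal.ofReal_le_ofReal_iff (intervalIntegral.integral_nonneg hm fun _ _ => abs_nonneg _),
    ← lens H.ca H'.ca hm, funext e1, ← lens H.cb H'.cb h,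
    ← shear.measure_preimage (measurableSet_regionBetween (H.ca.min H'.ca).measurable
      (H.ca.max H'.ca).measurable measurableSet_Ioc).nullMeasurableSet]
  refine measure_mono ?_
  rintro ⟨θ, t⟩ ⟨⟨h1, h2⟩, h3, h4⟩
  dsimp only at h1 h2 h3 h4
  rcases le_total (b θ) (b' θ) with c | c
  · rw [min_eq_left c] at h3
    rw [max_eq_right c] at h4
    obtain ⟨k1, k2, k3, k4⟩ := half_loc H H' h3 h4
    exact ⟨⟨(eα ▸ H'.mono h1).trans k3, k4.le.trans (H.mono.monotone h2)⟩,
      (min_le_left _ _).trans_lt k1, k2.trans_le (le_max_right _ _)⟩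
  · rw [min_eq_right c] at h3
    rw [max_eq_left c] at h4
    obtain ⟨k1, k2, k3, k4⟩ := half_loc H' H h3 h4
    exact ⟨⟨(H.mono h1).trans k3, k4.le.trans (eβ ▸ H'.mono.monotone h2)⟩,
      (min_le_right _ _).trans_lt k1, k2.trans_le (le_max_left _ _)⟩

theorem half_dyn (H : Half a b) (H' : Half a' b') (hs : ∀ θ, a θ + b θ = a' θ + b' θ)
    (h0 : ∃ θ, a θ ≠ a' θ) :
    (∃ α, (∀ n, a ((nxt b)^[n] α) = a' ((nxt b)^[n] α)) ∧
      ∃ N, 0 < N ∧ ∃ k : ℤ, (nxt b)^[N] α = α + k * (2 * π)) ∧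
      ∀ γ q, Odd q → ∀ k : ℤ, (nxt b)^[q] γ ≠ γ + k * (2 * π) := by
  have s0 : ∀ θ, a θ - a' θ = 0 → a (nxt b θ) - a' (nxt b θ) = 0 := fun θ h => by
    have h1 : b θ = b' θ := by linarith [hs θ]
    rw [H.a_nxt, sub_eq_zero]
    exact (H'.eq (H.pb θ)).1 h1
  obtain ⟨⟨α, h1, h2⟩, h3⟩ := dyn (d := fun x => a x - a' x) (H.ca.sub H'.ca) two_pi_pos
    (H.qa.sub H'.qa) H.mono H.surj H.shift s0 (fun θ h => by
      rw [H.a_nxt]
      rcases lt_or_gt_of_ne h with c | c
      · have h1 : ¬ b θ ≤ b' θ := not_le.2 (by linarith [hs θ])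
        rw [H'.le θ _ (H.pb θ)] at h1
        exact mul_neg_of_pos_of_neg (sub_pos.2 (not_le.1 h1)) c
      · have h1 : b θ < b' θ := by linarith [hs θ]
        rw [H'.lt θ _ (H.pb θ)] at h1
        exact mul_neg_of_neg_of_pos (sub_neg.2 h1) c)
    (mass H H' hs) (h0.imp fun θ h => sub_ne_zero.2 h)
  refine ⟨⟨α, fun n => sub_eq_zero.1 ?_, h2⟩, h3⟩
  induction n with
  | zero => exact h1
  | succ n ih => rw [Function.iterate_succ_apply']; exact s0 _ ih

end Pool.Agent.FS.EvenPolygon
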